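import Pool.Agent.Helper2.CT.Main
import Pool.Agent.Helper28.HT.Final

/-!
# Twists by powers of the canonical bundle, and the Chern number `c_1 c_{n-1}`

Mathematical content. Let `X`, `Y` be derived equivalent smooth projective varieties of dimension
`n`. Let `V_m(X)` be the direct sum of the spaces `H^q(X, Ω^p ⊗ ω^m)`, where `ω` is the canonical
line bundle. By Riemann-Roch the alternating trace of the form degree `p` on `V_m(X)` is
`(n/2) c_n + m c_1 c_{n-1}`, an affine function of `m`.

Let `P`, `Q` be the kernels of the equivalence and of its inverse. The kernel `P` has an isomorphism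
`P → P ⊗ M`, where `M = Hom(p^* ω_X, q^* ω_Y)`. Its twisted Mukai vectors, with coefficients in the
powers of `M`, give isomorphisms `U_m : V_m(X) → V_m(Y)` which preserve `p - q`, and the twisted
Mukai vectors of `Q` give the inverses. If `U_m` were compatible with `p`, then the traces of `p`
would agree. In general, as the trace is cyclic, the trace on `V_m(Y)` is the trace on `V_m(X)` plus
the sum of the numbers `j F_j(m)`, where `F_j(m)` is the supertrace of the composition of the part
of `U_m` of bidegree `(j, j)` and the part of the inverse of bidegree `(-j, -j)`.

The number `F_j(m)` is an intersection number on the `ℂ^* × ℂ^*`-bundle over `X × Y` on which both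
kernels become complexes of sheaves with compact support: the degree of the product of the function
`r^m` and the class of an algebraic zero cycle. Here `r` is the quotient of the two coordinates. The
product of a function and the class of a point is the value in the point times the class. Hence
`F_j(m)` is a sum of exponential functions of `m`, and it does not contribute to the slope of the
affine function. Therefore `c_1 c_{n-1}` is the same for `X` and `Y`.

By the formula of Libgober and Wood `2 c_1 c_{n-1}` is a combination of the Hodge numbers. For
`n = 5` this is the only relation which is missing in `HolomorphicTwoForms`, so all Hodge numbers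
agree.
-/

set_option autoImplicit false

namespace Pool.Agent.Results.MP_b4fe5e_ag.CanonicalTwists

open Pool.Agent.Hodge81 Pool.Agent.Twists2

universe u v w

/-- The first Chern number `c_1 c_{n-1}` is a derived invariant: it is the same for `X` and `Y` as
soon as there are canonical twists and a twisted equivalence. For `n = 5` all Hodge numbers agree if
and only if this Chern number agrees. -/
theorem result {n : ℕ} {A B : Type*} [Ring A] [Algebra ℂ A] [FiniteDimensional ℂ A]
    [Ring B] [Algebra ℂ B] [FiniteDimensional ℂ B] (X : HodgeRing n A) (Y : HodgeRing n B) :
    (∀ {V : ℤ → Type v} {W : ℤ → Type w} [∀ m, AddCommGroup (V m)] [∀ m, Module ℂ (V m)]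
      [∀ m, FiniteDimensional ℂ (V m)] [∀ m, AddCommGroup (W m)] [∀ m, Module ℂ (W m)]
      [∀ m, FiniteDimensional ℂ (W m)] {R L S : Type u} [CommRing R] [Algebra ℂ R]
      [AddCommGroup L] [Module ℂ L] [Module R L] [IsScalarTower ℂ R L]
      (CX : CanonicalTwists X V) (CY : CanonicalTwists Y W),
      TwistedEquivalence CX.grading CY.grading R L S → X.chernNumber = Y.chernNumber) ∧
    ∀ (P : PolyvectorAction X) (Q : PolyvectorAction Y) (phi : A ≃ₗ[ℂ] B),
      IsHochschildIso P Q phi → IsMukaiIsometry X Y phi →
        n = 5 → ((∀ p q, X.h p q = Y.h p q) ↔ X.chernNumber = Y.chernNumber) := by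
  refine ⟨fun CX CY E => chernNumber_eq CX CY E, fun P Q phi h1 h2 h5 => ?_⟩
  obtain ⟨-, -, -, f3⟩ := forms_main X Y P Q phi h1
  refine ⟨fun h => ?_, ((f3 h2).2.2 h5).2⟩
  unfold HodgeRing.chernNumber
  simp only [h]

end Pool.Agent.Results.MP_b4fe5e_ag.CanonicalTwists
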