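import Pool.Agent.Helper98.RF.Main

/-!
# Hodge numbers and derived equivalences which are linear over a base

Mathematical content. Let `f : X → B`, `g : Y → B` be surjective morphisms of smooth projective
varieties of dimension `n` onto a projective variety of dimension `b`, and let `phi` be the
isomorphism of the cohomologies induced by a derived equivalence whose kernel is supported on
`X ×_B Y`. Let `kX`, `kY` be the pullbacks of an ample class of `B`. Then
`phi (kX v) = kY phi (v)`. If `K` or `-K` is semiample, one can take `kX = s c1`, `kY = s c1` and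
for `B` the common Iitaka model, whatever the equivalence is.

Holomorphic forms. Let `e = n - b` be the dimension of the general fibre. If `e ≤ 4`, or if on both
sides the classes of type `(p,p)`, `2 ≤ p < e / 2`, are modulo `ker kX^b` polynomials in classes of
type `(1,1)`, then all the numbers `h^{0,q}` agree. Proof. Put `U = phi⁻¹ (omega_Y^e)`, so
`phi (kX^b U) = kY^b omega_Y^e` is a positive multiple of the class of a point; `U` is real, a sum of
classes `U_j` of type `(j,j)`, and `kX^b U` is orthogonal to `U` for the Mukai pairing (if `e > 0`).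
Suppose that `kX^b U` were orthogonal to all powers of all classes of type `(1,1)`, hence to the
algebra `R` which they generate. For `2 j > e`, `kX^b U_j` is orthogonal to `H^{e-j,e-j}`, which is
contained in `R + ker kX^b`, so it vanishes. For `2 j < e`, `kX^b omega^{e-2j} U_j` is orthogonal to
`H^{j,j}`, so it vanishes, and so does `kX^b U_j` by the Hodge-Riemann relations modulo `ker kX^b`.
For `2 j = e`, `kX^b omega U_j` is orthogonal to `H^{j-1,j-1}`, so it vanishes; the Hodge-Riemann
relations and the isotropy give `kX^b U_j = 0`. This is a contradiction. So `phi (exp t)` has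
non-zero rank for some `t` in `H^{1,1}(X)`. That such a class implies the equality of the `h^{0,q}`
is essentially known (Abuaf, Homological units): multiplication by a non-zero `y` in `H^{0,q}(Y)` does
not kill `phi (exp t)`, and `phi⁻¹ y phi` is in the image of `⨁ H^a(X, Λ^b T_X)`, `a + b = q`,
which maps `exp t` into `H^{0,q}(X) exp t`. So `h^{0,q}(Y) ≤ h^{0,q}(X)`.

Other columns. `phi` induces isometries of the quotients `H^*(X) / ker kX^j`, which satisfy the
Hodge-Riemann relations in dimension `n - j`. The signature theorem in dimension `n - j` gives the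
sum of the ranks of `k^j` on `H^{p-l,q-l}` over odd `l`, and a column of the Hodge diamond is
determined by the kernels of the `k^j`. If all fibres of `f` and `g` are connected of dimension at
most `3`, all the Hodge numbers agree.
-/

set_option autoImplicit false

namespace Pool.Agent.Results.MP_b4fe5e_ag.RelativeForms

open Pool.Agent.Hodge81 Pool.Agent.Hodge51 Pool.Agent.Hodge98

theorem result {n : ℕ} {A B : Type*} [Ring A] [Algebra ℂ A] [FiniteDimensional ℂ A]
    [Ring B] [Algebra ℂ B] [FiniteDimensional ℂ B]
    (X : HodgeRing n A) (Y : HodgeRing n B) (phi : A ≃ₗ[ℂ] B) (hphi : IsMukaiIsometry X Y phi)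
    (kX : A) (kY : B)
    (hk : (∀ v, phi (kX * v) = kY * phi v) ∨
      ∃ s : ℝ, kX = (s : ℂ) • X.c1 ∧ kY = (s : ℂ) • Y.c1) (b : ℕ)
    (hX : IsPullback X kX b) (hY : IsPullback Y kY b) :
    (∀ i : ℤ, (∀ p q j : ℕ, (p : ℤ) - q = i → p + q + j + 2 ≤ n → 4 ∣ n - 2 - (p + q + j) →
      kernelDim X kX j p q = kernelDim Y kY j p q) →
      ∀ p q : ℕ, (p : ℤ) - q = i → X.h p q = Y.h p q) ∧
    (kX ^ b ≠ 0 → (n ≤ b + 4 ∨ GeneratedByDivisors X kX b ∧ GeneratedByDivisors Y kY b) →
      ∀ (P : PolyvectorAction X) (Q : PolyvectorAction Y), IsHochschildIso P Q phi →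
        ∀ q : ℕ, X.h 0 q = Y.h 0 q) :=
  (Pool.Agent.Hodge98.relative_main X Y phi hphi kX kY hk b hX hY).2

end Pool.Agent.Results.MP_b4fe5e_ag.RelativeForms
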