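import Pool.Agent.KT.Times

/-!
# Derived equivalent varieties with trivial canonical bundle

Mathematical content. Let `X`, `Y` be smooth projective varieties of dimension `n`. A derived
equivalence `D(X) ≅ D(Y)` induces an isomorphism `phi` of their complex cohomologies which commutes
with complex conjugation, maps the image `T^q` of `⨁_{a+b=q} H^a(Λ^b T_X)` in `End H^*(X, ℂ)`
(Hochschild cohomology acting by contraction) onto the same space for `Y`, maps the columns
`⨁_{p-q=i} H^{p,q}` onto columns and is an isometry for the Mukai pairings.

Let `X × E = S × Z_1 × ... × Z_k` and `Y × E = S' × Z'_1 × ... × Z'_l`, where `E` is any variety,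
`S`, `S'` are holomorphic symplectic (for example products of abelian varieties and of irreducible
symplectic varieties) and `Z_i`, `Z'_j` are strict Calabi-Yau varieties (trivial canonical bundle,
dimension at least three, no holomorphic forms in the degrees between zero and the dimension).
With a point or an elliptic curve for `E`, these are all products `X`, `Y` of an abelian variety,
of irreducible symplectic varieties and of strict Calabi-Yau varieties; by Beauville-Bogomolov
every simply connected variety with trivial canonical bundle is such a product.

The theorem: the factors match. `S` and `S'` have the same dimension and the same Hodge numbers;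
`k = l`, and after a renumbering `Z_i`, `Z'_i` have the same dimension, the same columns
`∑_{p-q=c} h^{p,q}` and the same signatures `∑_{p-q=c} (-1)^q h^{p,q}`. So all `h^{0,q}` of `X` and
`Y` agree, and if all strict Calabi-Yau factors have dimension at most five, then all Hodge numbers
of `X` and `Y` agree.

Proof. One replaces `X`, `Y`, `phi` by `X × E`, `Y × E`, `phi × id`. The column operator `e_i` of
the factor `Z_i` (`p - q` on the classes from `Z_i`) and its transport by `phi` are compared with
the column operators of the factors of `Y`: they commute, and the polyvector fields which commute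
with the column operators of all the other factors are, up to degree two, only those of type
`(1,1)` for a strict Calabi-Yau factor, and contain two-forms for a symplectic one. It follows that
a strict Calabi-Yau factor of `X` corresponds to exactly one of the factors of `Y`, and that `phi`
intertwines the column operators of the corresponding factors. Their cohomologies, with the columns
and the Mukai pairings, are spaces of extreme weight for the other column operators. The Hodge
numbers of the symplectic factor come from the ranks of the powers of a nondegenerate two-form on
the columns.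
-/

set_option autoImplicit false

namespace Pool.Agent.Results.MP_b4fe5e_ag.TrivialCanonical

open Pool.Agent.Hodge81

universe u

theorem result {n e ν r r' b b' : ℕ} {A B K A₁ B₁ C D C' D' : Type u}
    [Ring A] [Algebra ℂ A] [FiniteDimensional ℂ A] [Ring B] [Algebra ℂ B] [FiniteDimensional ℂ B]
    [Ring K] [Algebra ℂ K] [FiniteDimensional ℂ K]
    [Ring A₁] [Algebra ℂ A₁] [FiniteDimensional ℂ A₁]
    [Ring B₁] [Algebra ℂ B₁] [FiniteDimensional ℂ B₁]
    [Ring C] [Algebra ℂ C] [FiniteDimensional ℂ C] [Ring D] [Algebra ℂ D] [FiniteDimensional ℂ D]
    [Ring C'] [Algebra ℂ C'] [FiniteDimensional ℂ C']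
    [Ring D'] [Algebra ℂ D'] [FiniteDimensional ℂ D']
    (X : HodgeRing n A) (Y : HodgeRing n B) (P : PolyvectorAction X) (Q : PolyvectorAction Y)
    (phi : A ≃ₗ[ℂ] B) (hphi : IsHochschildIso P Q phi) (hM : IsMukaiIsometry X Y phi)
    (E : HodgeRing e K) (PE : PolyvectorAction E) (XE : HodgeRing ν A₁) (YE : HodgeRing ν B₁)
    (PX : PolyvectorAction XE) (PY : PolyvectorAction YE) (V : Product XE X E)
    (V' : Product YE Y E) (hV : V.Full PX P PE) (hV' : V'.Full PY Q PE)
    (S : HodgeRing (2 * r) C) (Z : HodgeRing b D) (S' : HodgeRing (2 * r') C')
    (Z' : HodgeRing b' D') (PS : PolyvectorAction S) (PZ : PolyvectorAction Z)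
    (PS' : PolyvectorAction S') (PZ' : PolyvectorAction Z') (L L' : Multiset Diamond)
    (U : Decomposition PX PS PZ L) (U' : Decomposition PY PS' PZ' L') :
    r = r' ∧ b = b' ∧ (∀ p q, S.h p q = S'.h p q) ∧ Multiset.Rel Diamond.Matches L L' ∧
      (∀ q, X.h 0 q = Y.h 0 q) ∧
      ((∀ d ∈ L, d.1 ≤ 5) → L = L' ∧ ∀ p q, X.h p q = Y.h p q) :=
  times_main hphi hM hV hV' U U'

end Pool.Agent.Results.MP_b4fe5e_ag.TrivialCanonical
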